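import Pool.Agent.W290.LG.Stm

set_option autoImplicit false

namespace Pool.Agent.W382.LG

open Polynomial

theorem lift (p : ℕ) [Fact p.Prime] (a d : ℤ)
    (h : ‖((a ^ 2 - d : ℤ) : ℤ_[p])‖ < ‖((2 * a : ℤ) : ℤ_[p])‖ ^ 2) :
    ∃ x : ℚ_[p], x ^ 2 = (d : ℚ_[p]) := by
  have hF : ∀ z : ℤ_[p], (X ^ 2 - C (d : ℤ_[p]) : ℤ_[p][X]).aeval z = z ^ 2 - d := by
    intro z; simp
  have hF' : ∀ z : ℤ_[p], (X ^ 2 - C (d : ℤ_[p]) : ℤ_[p][X]).derivative.aeval z = 2 * z := by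
    intro z; simp; left; norm_num
  have hn : ‖(X ^ 2 - C (d : ℤ_[p]) : ℤ_[p][X]).aeval (a : ℤ_[p])‖ <
      ‖(X ^ 2 - C (d : ℤ_[p]) : ℤ_[p][X]).derivative.aeval (a : ℤ_[p])‖ ^ 2 := by
    rw [hF, hF']
    have := h
    push_cast at this
    exact this
  obtain ⟨z, hz, _⟩ := hensels_lemma hn
  rw [hF] at hz
  refine ⟨(z : ℚ_[p]), ?_⟩
  have hz' : z ^ 2 = (d : ℤ_[p]) := by linear_combination hz
  have := congrArg (fun t : ℤ_[p] => (t : ℚ_[p])) hz'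
  simpa using this

theorem lift' (p : ℕ) [Fact p.Prime] (a d : ℤ) (h1 : (p : ℤ) ∣ a ^ 2 - d)
    (h2 : ¬ (p : ℤ) ∣ 2 * a) : ∃ x : ℚ_[p], x ^ 2 = (d : ℚ_[p]) := by
  apply lift p a d
  have e1 := (PadicInt.norm_int_lt_one_iff_dvd (p := p) (a ^ 2 - d)).2 h1
  have e2 : ¬ ‖((2 * a : ℤ) : ℤ_[p])‖ < 1 := fun h =>
    h2 ((PadicInt.norm_int_lt_one_iff_dvd (p := p) (2 * a)).1 h)
  have e3 : ‖((2 * a : ℤ) : ℤ_[p])‖ = 1 :=
    le_antisymm (PadicInt.norm_le_one _) (not_lt.1 e2)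
  rw [e3]
  simpa using e1

theorem lift'' (p : ℕ) [Fact p.Prime] (hp : p ≠ 2) (d : ℤ) (hd : (d : ZMod p) ≠ 0)
    (h : IsSquare (d : ZMod p)) : ∃ x : ℚ_[p], x ^ 2 = (d : ℚ_[p]) := by
  obtain ⟨r, hr⟩ := h
  have hpp : p.Prime := Fact.out
  refine lift' p (r.val : ℤ) d ?_ ?_
  · rw [← ZMod.intCast_zmod_eq_zero_iff_dvd] 
    push_cast
    rw [ZMod.natCast_zmod_val, hr]
    ring
  · intro hdvd
    have hpI : Prime (p : ℤ) := Nat.prime_iff_prime_int.1 hpp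
    rcases hpI.dvd_or_dvd hdvd with h' | h'
    · have : p ∣ 2 := by exact_mod_cast h'
      exact hp ((Nat.prime_dvd_prime_iff_eq hpp Nat.prime_two).1 this)
    · have h3 := (ZMod.intCast_zmod_eq_zero_iff_dvd (r.val : ℤ) p).2 h'
      push_cast at h3
      rw [ZMod.natCast_zmod_val] at h3
      apply hd
      rw [hr, h3, mul_zero]

theorem t_F : Pool.Agent.W290.LG.S_F := by
  intro p hpf
  have hpp : p.Prime := Fact.out
  by_cases hp2 : p = 2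
  · subst hp2
    have : ∃ x : ℚ_[2], x ^ 2 = ((17 : ℤ) : ℚ_[2]) := by
      apply lift 2 1 17
      have e1 : (((1 : ℤ) ^ 2 - 17 : ℤ) : ℤ_[2]) = - (2 : ℤ_[2]) ^ 4 := by norm_num
      have e2 : ((2 * (1 : ℤ) : ℤ) : ℤ_[2]) = 2 := by norm_num
      have e3 : ‖(2 : ℤ_[2])‖ = (2 : ℝ)⁻¹ := by
        have := PadicInt.norm_p (p := 2)
        simpa using this
      rw [e1, e2, norm_neg, norm_pow, e3]
      norm_num
    obtain ⟨x, hx⟩ := this
    exact ⟨x, Or.inr (Or.inl (by simpa using hx))⟩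
  by_cases hp17 : p = 17
  · subst hp17
    have : ∃ x : ℚ_[17], x ^ 2 = ((2 : ℤ) : ℚ_[17]) := by
      apply lift' 17 6 2
      · norm_num
      · norm_num
    obtain ⟨x, hx⟩ := this
    exact ⟨x, Or.inl (by simpa using hx)⟩
  have h2 : ((2 : ℤ) : ZMod p) ≠ 0 := by
    intro h
    have := (ZMod.intCast_zmod_eq_zero_iff_dvd 2 p).1 h
    have : p ∣ 2 := by exact_mod_cast this
    exact hp2 ((Nat.prime_dvd_prime_iff_eq hpp Nat.prime_two).1 this)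
  have h17 : ((17 : ℤ) : ZMod p) ≠ 0 := by
    intro h
    have := (ZMod.intCast_zmod_eq_zero_iff_dvd 17 p).1 h
    have : p ∣ 17 := by exact_mod_cast this
    exact hp17 ((Nat.prime_dvd_prime_iff_eq hpp (by norm_num)).1 this)
  have h34 : ((34 : ℤ) : ZMod p) ≠ 0 := by
    have : ((34 : ℤ) : ZMod p) = ((2 : ℤ) : ZMod p) * ((17 : ℤ) : ZMod p) := by
      rw [← Int.cast_mul]; norm_num
    rw [this]
    exact mul_ne_zero h2 h17
  rcases legendreSym.eq_one_or_neg_one p h2 with a1 | a1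
  · obtain ⟨x, hx⟩ := lift'' p hp2 2 h2 ((legendreSym.eq_one_iff p h2).1 a1)
    exact ⟨x, Or.inl (by simpa using hx)⟩
  rcases legendreSym.eq_one_or_neg_one p h17 with a2 | a2
  · obtain ⟨x, hx⟩ := lift'' p hp2 17 h17 ((legendreSym.eq_one_iff p h17).1 a2)
    exact ⟨x, Or.inr (Or.inl (by simpa using hx))⟩
  have a3 : legendreSym p 34 = 1 := by
    have : (34 : ℤ) = 2 * 17 := by norm_num
    rw [this, legendreSym.mul, a1, a2]
    norm_num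
  obtain ⟨x, hx⟩ := lift'' p hp2 34 h34 ((legendreSym.eq_one_iff p h34).1 a3)
  exact ⟨x, Or.inr (Or.inr (by simpa using hx))⟩

end Pool.Agent.W382.LG
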